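import Mathlib

namespace Pool.Agent.Results.MP_336050_an.NoMinimalTuple

open Matrix

/-- The orbit `{A₁^k₁ ⋯ A_m^k_m x}` of a vector under a tuple of matrices. -/
def orbit {m n : ℕ} (A : Fin m → Matrix (Fin n) (Fin n) ℝ) (x : Fin n → ℝ) : Set (Fin n → ℝ) :=
  {y | ∃ k : Fin m → ℕ, y = (List.ofFn fun i => A i ^ k i).prod *ᵥ x}

theorem common_eigen {V : Type*} [AddCommGroup V] [Module ℂ V] [FiniteDimensional ℂ V]
    [Nontrivial V] {ι : Type*} (f : ι → Module.End ℂ V) (hf : ∀ i j, f i * f j = f j * f i)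
    (s : Finset ι) :
    ∃ W : Submodule ℂ V, W ≠ ⊥ ∧ (∀ j, ∀ v ∈ W, f j v ∈ W) ∧
      ∀ i ∈ s, ∃ μ : ℂ, ∀ v ∈ W, f i v = μ • v := by
  classical
  induction s using Finset.induction_on with
  | empty => exact ⟨⊤, top_ne_bot, fun _ _ _ => trivial, by simp⟩
  | insert a s ha ih =>
    obtain ⟨W, hW, hinv, hs⟩ := ih
    haveI : Nontrivial W := Submodule.nontrivial_iff_ne_bot.2 hW
    obtain ⟨μ, hμ⟩ := Module.End.exists_eigenvalue ((f a).restrict (hinv a))
    obtain ⟨v, hv⟩ := hμ.exists_hasEigenvector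
    have hv0 : v ≠ 0 := hv.2
    have hv1 := hv.apply_eq_smul
    have hv2 : f a (v : V) = μ • (v : V) := by
      have := congrArg Subtype.val hv1
      simpa using this
    refine ⟨W ⊓ Module.End.eigenspace (f a) μ, ?_, ?_, ?_⟩
    · rw [Submodule.ne_bot_iff]
      refine ⟨v, ⟨v.2, Module.End.mem_eigenspace_iff.2 hv2⟩, ?_⟩
      intro h
      exact hv0 (Subtype.ext h)
    · intro j w hw
      refine ⟨hinv j w hw.1, ?_⟩
      have h2 := Module.End.mem_eigenspace_iff.1 hw.2
      refine Module.End.mem_eigenspace_iff.2 ?_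
      have := congrArg (fun g : Module.End ℂ V => g w) (hf a j)
      simp only [Module.End.mul_apply] at this
      rw [this, h2, map_smul]
    · intro i hi
      rcases Finset.mem_insert.1 hi with rfl | hi
      · exact ⟨μ, fun w hw => Module.End.mem_eigenspace_iff.1 hw.2⟩
      · obtain ⟨ν, hν⟩ := hs i hi
        exact ⟨ν, fun w hw => hν w hw.1⟩

theorem list_inv {n : ℕ} (S : Submodule ℝ (Fin n → ℝ)) (L : List (Matrix (Fin n) (Fin n) ℝ))
    (hL : ∀ M ∈ L, ∀ v ∈ S, M *ᵥ v ∈ S) : ∀ v ∈ S, L.prod *ᵥ v ∈ S := by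
  induction L with
  | nil => intro v hv; simpa using hv
  | cons M L ih =>
    intro v hv
    rw [List.prod_cons, ← Matrix.mulVec_mulVec]
    exact hL M (by simp) _ (ih (fun N hN => hL N (by simp [hN])) v hv)

theorem pow_inv {n : ℕ} (S : Submodule ℝ (Fin n → ℝ)) (M : Matrix (Fin n) (Fin n) ℝ)
    (hM : ∀ v ∈ S, M *ᵥ v ∈ S) (k : ℕ) : ∀ v ∈ S, (M ^ k) *ᵥ v ∈ S := by
  induction k with
  | zero => intro v hv; simpa using hv
  | succ k ih =>
    intro v hv
    rw [pow_succ, ← Matrix.mulVec_mulVec]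
    exact ih _ (hM v hv)

/-- For `n ≥ 3`, every finite tuple of pairwise commuting real `n × n` matrices has a non-zero
vector whose orbit is not dense. -/
theorem result (n : ℕ) (hn : 3 ≤ n) (m : ℕ) (A : Fin m → Matrix (Fin n) (Fin n) ℝ)
    (hA : ∀ i j, A i * A j = A j * A i) :
    ∃ x : Fin n → ℝ, x ≠ 0 ∧ ¬ Dense (orbit A x) := by
  classical
  haveI : NeZero n := ⟨by omega⟩
  let B : Fin m → Matrix (Fin n) (Fin n) ℂ := fun i => (A i).map (fun t => (t : ℂ))
  have hB : ∀ i j, B i * B j = B j * B i := by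
    intro i j
    have h1 : ∀ i j, B i * B j = (A i * A j).map (fun t => (t : ℂ)) := by
      intro i j
      ext a b
      simp [B, Matrix.mul_apply]
    rw [h1, h1, hA]
  obtain ⟨W, hW, -, hs⟩ := common_eigen (V := Fin n → ℂ) (fun i => Matrix.toLin' (B i))
    (fun i j => by
      change Matrix.toLin' (B i) ∘ₗ Matrix.toLin' (B j) = Matrix.toLin' (B j) ∘ₗ Matrix.toLin' (B i)
      rw [← Matrix.toLin'_mul, ← Matrix.toLin'_mul, hB]) Finset.univ
  obtain ⟨v, hvW, hv0⟩ := (Submodule.ne_bot_iff W).1 hW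
  let a : Fin n → ℝ := fun r => (v r).re
  let b : Fin n → ℝ := fun r => (v r).im
  let S : Submodule ℝ (Fin n → ℝ) := Submodule.span ℝ {a, b}
  have haS : a ∈ S := Submodule.subset_span (by simp)
  have hbS : b ∈ S := Submodule.subset_span (by simp)
  have hinv : ∀ i, ∀ w ∈ S, A i *ᵥ w ∈ S := by
    intro i
    obtain ⟨μ, hμ⟩ := hs i (Finset.mem_univ _)
    have h := hμ v hvW
    rw [Matrix.toLin'_apply] at h
    have ha : A i *ᵥ a = μ.re • a - μ.im • b := by
      funext r
      have := congrArg Complex.re (congrFun h r)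
      simpa [B, a, b, Matrix.mulVec, dotProduct, Complex.re_sum] using this
    have hb : A i *ᵥ b = μ.re • b + μ.im • a := by
      funext r
      have := congrArg Complex.im (congrFun h r)
      simpa [B, a, b, Matrix.mulVec, dotProduct, Complex.im_sum] using this
    intro w hw
    obtain ⟨p, q, rfl⟩ := Submodule.mem_span_pair.1 hw
    rw [Matrix.mulVec_add, Matrix.mulVec_smul, Matrix.mulVec_smul, ha, hb]
    exact S.add_mem (S.smul_mem _ (S.sub_mem (S.smul_mem _ haS) (S.smul_mem _ hbS)))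
      (S.smul_mem _ (S.add_mem (S.smul_mem _ hbS) (S.smul_mem _ haS)))
  have hx : ∃ x ∈ S, x ≠ 0 := by
    by_contra hc
    push Not at hc
    apply hv0
    funext r
    have h1 := congrFun (hc a haS) r
    have h2 := congrFun (hc b hbS) r
    exact Complex.ext (by simpa [a] using h1) (by simpa [b] using h2)
  obtain ⟨x, hxS, hx0⟩ := hx
  refine ⟨x, hx0, fun hd => ?_⟩
  have hsub : orbit A x ⊆ (S : Set (Fin n → ℝ)) := by
    rintro y ⟨k, rfl⟩
    refine list_inv S _ ?_ x hxS
    intro M hM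
    obtain ⟨i, rfl⟩ := (List.mem_ofFn' _ _).1 hM
    exact pow_inv S _ (hinv i) _
  have hcl : IsClosed (S : Set (Fin n → ℝ)) := S.closed_of_finiteDimensional
  have htop : S = ⊤ := by
    have := (hd.mono hsub).closure_eq
    rw [hcl.closure_eq] at this
    exact Submodule.eq_top_iff'.2 (fun y => by
      have : y ∈ (S : Set (Fin n → ℝ)) := this ▸ Set.mem_univ y
      exact this)
  have h2 : Module.finrank ℝ S ≤ 2 := by
    have := finrank_span_le_card (R := ℝ) ({a, b} : Set (Fin n → ℝ))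
    refine this.trans ?_
    rw [Set.toFinset_insert, Set.toFinset_singleton]
    exact Finset.card_le_two
  rw [htop, finrank_top, Module.finrank_fin_fun] at h2
  omega

end Pool.Agent.Results.MP_336050_an.NoMinimalTuple
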